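import Pool.Agent.Helper64.Bt.Side

/-! Counting collinear triples; transport to a finite set of points. -/

set_option autoImplicit false
open Finset
open scoped Classical

namespace Pool.Agent.Helper64.Bt

theorem six {V : Type} (T : Finset V) (hT : T.card = 3) :
    ∃ F : Finset (V × V × V), F.card ≤ 6 ∧ ∀ a b c : V, a ≠ b → a ≠ c → b ≠ c →
      ({a, b, c} : Finset V) = T → (a, b, c) ∈ F := by
  obtain ⟨p, q, r, hpq, hpr, hqr, rfl⟩ := Finset.card_eq_three.mp hT
  refine ⟨{(p, q, r), (p, r, q), (q, p, r), (q, r, p), (r, p, q), (r, q, p)}, ?_, ?_⟩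
  · exact Finset.card_le_six
  · intro a b c hab hac hbc h
    have ha : a ∈ ({p, q, r} : Finset V) := h ▸ (by simp)
    have hb : b ∈ ({p, q, r} : Finset V) := h ▸ (by simp)
    have hc : c ∈ ({p, q, r} : Finset V) := h ▸ (by simp)
    simp only [mem_insert, mem_singleton] at ha hb hc
    clear h
    rcases ha with rfl | rfl | rfl <;> rcases hb with rfl | rfl | rfl <;>
      rcases hc with rfl | rfl | rfl <;> simp_all

theorem ordered_le {V : Type} [Fintype V] {B : V → V → V → Prop} (h : Betw B) :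
    (∑ a : V, ∑ b : V, ∑ c : V, if tc B a b c = 0 then 0 else 1) ≤
      6 * (collinear B univ).card := by
  have e : (∑ a : V, ∑ b : V, ∑ c : V, if tc B a b c = 0 then 0 else 1) =
      ((univ : Finset (V × V × V)).filter fun x => tc B x.1 x.2.1 x.2.2 ≠ 0).card := by
    rw [card_filter, Fintype.sum_prod_type]
    refine sum_congr rfl fun a _ => ?_
    rw [Fintype.sum_prod_type]
    refine sum_congr rfl fun b _ => sum_congr rfl fun c _ => ?_
    by_cases h0 : tc B a b c = 0 <;> simp [h0]
  rw [e]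
  have hdis : ∀ a b c : V, tc B a b c ≠ 0 → a ≠ b ∧ a ≠ c ∧ b ≠ c := by
    intro a b c h0
    refine ⟨?_, ?_, ?_⟩
    · rintro rfl; exact h0 (tc_self1 h _ _)
    · rintro rfl; exact h0 (tc_self3 h _ _)
    · rintro rfl; exact h0 (tc_self2 h _ _)
  rw [mul_comm]
  refine (Finset.card_le_mul_card_image_of_maps_to (f := fun x : V × V × V =>
    ({x.1, x.2.1, x.2.2} : Finset V)) (t := collinear B univ) ?_ 6 ?_).trans (le_of_eq (mul_comm _ _))
  · rintro ⟨a, b, c⟩ hx
    rw [mem_filter] at hx
    obtain ⟨hab, hac, hbc⟩ := hdis a b c hx.2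
    unfold collinear
    rw [mem_filter, mem_powersetCard]
    refine ⟨⟨subset_univ _, Finset.card_eq_three.mpr ⟨a, b, c, hab, hac, hbc, rfl⟩⟩, ?_⟩
    have h4 := tc_lt (B := B) a b c
    have h0 : tc B a b c ≠ 0 := hx.2
    rcases (by omega : tc B a b c = 1 ∨ tc B a b c = 2 ∨ tc B a b c = 3) with h1 | h2 | h3
    · exact ⟨b, by simp, a, by simp, c, by simp, tc_one.1 h1⟩
    · exact ⟨a, by simp, b, by simp, c, by simp, (tc_two h).1 h2⟩
    · exact ⟨a, by simp, c, by simp, b, by simp, (tc_three h).1 h3⟩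
  · intro T hT
    unfold collinear at hT
    rw [mem_filter, mem_powersetCard] at hT
    obtain ⟨F, hF, hF'⟩ := six T hT.1.2
    refine (card_le_card ?_).trans hF
    rintro ⟨a, b, c⟩ hx
    rw [mem_filter, mem_filter] at hx
    obtain ⟨hab, hac, hbc⟩ := hdis a b c hx.1.2
    exact hF' a b c hab hac hbc hx.2

/-- the points of `S` -/
noncomputable def fS {V : Type} (S : Finset V) : Fin S.card ↪ V :=
  ⟨fun i => (S.equivFin.symm i : V), fun _ _ h => S.equivFin.symm.injective (Subtype.ext h)⟩

theorem fS_mem {V : Type} (S : Finset V) (i : Fin S.card) : fS S i ∈ S :=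
  (S.equivFin.symm i).2

theorem betw_pull {V W : Type} {B : V → V → V → Prop} (h : Betw B) (f : W ↪ V) :
    Betw fun a b c => B (f a) (f b) (f c) where
  ends _ _ _ h1 := fun e => h.ends _ _ _ h1 (congrArg f e)
  symm _ _ _ h1 := h.symm _ _ _ h1
  mid _ _ _ h1 := h.mid _ _ _ h1
  trans _ _ _ _ h1 h2 := h.trans _ _ _ _ h1 h2

theorem collinear_pull {V : Type} (B : V → V → V → Prop) (S : Finset V) :
    (collinear (fun a b c => B (fS S a) (fS S b) (fS S c)) univ).card ≤ (collinear B S).card := by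
  refine card_le_card_of_injOn (fun T => T.map (fS S)) ?_ ((map_injective _).injOn)
  intro T hT
  simp only [collinear, coe_filter, mem_powersetCard, Set.mem_ofPred_eq] at hT ⊢
  obtain ⟨⟨-, h3⟩, a, ha, b, hb, c, hc, hB⟩ := hT
  refine ⟨⟨?_, by rw [card_map, h3]⟩, fS S a, mem_map_of_mem _ ha, fS S b, mem_map_of_mem _ hb,
    fS S c, mem_map_of_mem _ hc, hB⟩
  intro x hx
  obtain ⟨i, -, rfl⟩ := mem_map.mp hx
  exact fS_mem S i

theorem bad_pull {V : Type} (B : V → V → V → Prop) (S : Finset V) :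
    (bad (fun a b c => B (fS S a) (fS S b) (fS S c)) univ).card ≤ (bad B S).card := by
  refine card_le_card_of_injOn (fun T => T.map (fS S)) ?_ ((map_injective _).injOn)
  intro T hT
  simp only [bad, coe_filter, mem_powersetCard, Set.mem_ofPred_eq] at hT ⊢
  obtain ⟨⟨-, h3⟩, hb⟩ := hT
  refine ⟨⟨?_, by rw [card_map, h3]⟩, ?_⟩
  · intro x hx
    obtain ⟨i, -, rfl⟩ := mem_map.mp hx
    exact fS_mem S i
  · rcases hb with hb | ⟨a, ha, x, hx, y, hy, c, hc, hxy, h1, h2, h3, h4⟩
    · left
      rintro ⟨a, ha, b, hb', c, hc, hB⟩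
      obtain ⟨i, hi, rfl⟩ := mem_map.mp ha
      obtain ⟨j, hj, rfl⟩ := mem_map.mp hb'
      obtain ⟨k, hk, rfl⟩ := mem_map.mp hc
      exact hb ⟨i, hi, j, hj, k, hk, hB⟩
    · right
      exact ⟨fS S a, mem_map_of_mem _ ha, fS S x, mem_map_of_mem _ hx, fS S y, mem_map_of_mem _ hy,
        fS S c, mem_map_of_mem _ hc, fun e => hxy ((fS S).injective e), h1, h2, h3, h4⟩

/-- the digits of a triple with the first two points exchanged -/
def d12 (x : ℕ) : ℕ := if x = 1 then 2 else if x = 2 then 1 else x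
/-- the digits of a triple with the last two points exchanged -/
def d23 (x : ℕ) : ℕ := if x = 2 then 3 else if x = 3 then 2 else x

/-- the inequality for codes (proved by flag algebras) -/
def Main (C : ℕ) : Prop := ∀ (n : ℕ) (t : Fin n → Fin n → Fin n → ℕ), (∀ a b c, t a b c < 4) →
  (∀ a b c, t b a c = d12 (t a b c)) → (∀ a b c, t a c b = d23 (t a b c)) →
  ∀ E4 : Finset (Finset (Fin n)), (∀ Q ∈ E4, Q.card = 4) →
  (∀ a b c d, a ≠ b → a ≠ c → a ≠ d → b ≠ c → b ≠ d → c ≠ d → ({a, b, c, d} : Finset (Fin n)) ∉ E4 →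
    Nat.beq (Nat.mod (Nat.shiftRight OK4
      (t a b c + 4 * t a b d + 16 * t a c d + 64 * t b c d)) 2) 1 = true) →
  4 * n ^ 4 ≤ 9 * n * (∑ a, ∑ b, ∑ c, if t a b c = 0 then 0 else 1) + C * (n ^ 3 + E4.card)

theorem bad_inst {V : Type} {B : V → V → V → Prop} (i j : DecidableEq V) {a b c d : V}
    (h : Bad B (@insert V (Finset V) (@Finset.instInsert V i) a
      (@insert V (Finset V) (@Finset.instInsert V i) b
        (@insert V (Finset V) (@Finset.instInsert V i) c {d})))) :
    Bad B (@insert V (Finset V) (@Finset.instInsert V j) a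
      (@insert V (Finset V) (@Finset.instInsert V j) b
        (@insert V (Finset V) (@Finset.instInsert V j) c {d}))) := by
  have e : i = j := Subsingleton.elim i j
  subst e
  exact h

/-- the bound for betweenness relations -/
theorem robust {C : ℕ} (hM : Main C) {V : Type} {B : V → V → V → Prop} (h : Betw B)
    (S : Finset V) : 4 * S.card ^ 4 ≤
      54 * S.card * (collinear B S).card + C * (S.card ^ 3 + (bad B S).card) := by
  set B' : Fin S.card → Fin S.card → Fin S.card → Prop := fun a b c => B (fS S a) (fS S b) (fS S c)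
    with hB'
  have h' : Betw B' := betw_pull h (fS S)
  have m := hM S.card (tc B') (tc_lt (B := B')) (fun a b c => tc_swap12 h' a b c)
    (fun a b c => tc_swap23 h' a b c) (bad B' univ)
    (fun Q hQ => by
      unfold bad at hQ
      exact (mem_powersetCard.mp (mem_filter.mp hQ).1).2)
    (fun a b c d hab hac had hbc hbd hcd hn => ok_of_good h' hab hac had hbc hbd hcd (by
      intro hb
      apply hn
      unfold bad
      rw [mem_filter, mem_powersetCard]
      refine ⟨⟨subset_univ _, ?_⟩, bad_inst _ _ hb⟩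
      rw [card_insert_of_notMem (by simp [hab, hac, had]),
        card_insert_of_notMem (by simp [hbc, hbd]), card_insert_of_notMem (by simp [hcd]),
        card_singleton]))
  have o := ordered_le h'
  have c1 := collinear_pull B S
  have c2 := bad_pull B S
  calc 4 * S.card ^ 4 ≤ 9 * S.card * (∑ a, ∑ b, ∑ c, if tc B' a b c = 0 then 0 else 1) +
      C * (S.card ^ 3 + (bad B' univ).card) := m
    _ ≤ 9 * S.card * (6 * (collinear B S).card) + C * (S.card ^ 3 + (bad B S).card) := by
        refine add_le_add (Nat.mul_le_mul_left _ (o.trans (Nat.mul_le_mul_left _ c1))) ?_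
        exact Nat.mul_le_mul_left _ (Nat.add_le_add_left c2 _)
    _ = _ := by ring

end Pool.Agent.Helper64.Bt
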