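import Pool.Agent.Helper10.Bt.Defs
import Pool.Agent.Helper64.Bt.Cnt

/-! From betweenness relations to codes of triples. -/

set_option autoImplicit false
open Finset
open scoped Classical

namespace Pool.Agent.Helper64.Bt
open Pool.Agent.Helper10.Bt (s12 s23 c4)
open Pool.Agent.Helper10.Sw (okc)

/-- the inequality for codes -/
def MainH (C : ℕ) : Prop := ∀ (n : ℕ) (H : Finset (Finset (Fin n))) (_ : ∀ e ∈ H, e.card = 3)
  (t : Fin n → Fin n → Fin n → ℕ) (_ : ∀ a b c, t a b c < 4)
  (_ : ∀ a b c, t b a c = s12 (t a b c)) (_ : ∀ a b c, t a c b = s23 (t a b c))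
  (_ : ∀ a b c, ({a, b, c} : Finset (Fin n)) ∈ H → t a b c = 0)
  (E : Finset (Finset (Fin n))) (_ : ∀ e ∈ E, e.card = 4)
  (_ : ∀ a b c d, a ≠ b → a ≠ c → a ≠ d → b ≠ c → b ≠ d → c ≠ d →
    ({a, b, c, d} : Finset (Fin n)) ∉ E →
    okc 9105446378665370970414495782467130278682685432304100497532396655114461058942
      (c4 (t a b c) (t a b d) (t a c d) (t b c d)) = true),
  54 * (n * H.card) ≤ 5 * n ^ 4 + C * (n ^ 3 + E.card)

theorem s12_d : ∀ v < 4, s12 v = d12 v := by decide
theorem s23_d : ∀ v < 4, s23 v = d23 v := by decide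

theorem cube_le (n : ℕ) : n ^ 3 ≤ 6 * n.choose 3 + 3 * n ^ 2 := by
  have h : n.descFactorial 3 = 6 * n.choose 3 := Nat.descFactorial_eq_factorial_mul_choose n 3
  rw [← h]
  rcases Nat.lt_or_ge n 2 with h2 | h2
  · interval_cases n <;> simp [Nat.descFactorial]
  · obtain ⟨m, rfl⟩ := Nat.exists_eq_add_of_le' h2
    simp only [Nat.descFactorial, Nat.add_sub_cancel, Nat.sub_zero, mul_one,
      show m + 2 - 1 = m + 1 from rfl]
    ring_nf
    nlinarith [Nat.zero_le m]

theorem mem_collinear {V : Type} {B : V → V → V → Prop} {S T : Finset V} :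
    T ∈ collinear B S ↔ T ∈ S.powersetCard 3 ∧ ∃ a ∈ T, ∃ b ∈ T, ∃ c ∈ T, B a b c := by
  unfold collinear
  rw [mem_filter]

theorem coreH {C : ℕ} (hM : MainH C) {n : ℕ} {B' : Fin n → Fin n → Fin n → Prop}
    (h' : Betw B') : 4 * n ^ 4 ≤
      54 * n * (collinear B' univ).card + (C + 27) * (n ^ 3 + (bad B' univ).card) := by
  obtain ⟨K, hK⟩ : ∃ K, K = collinear B' univ := ⟨_, rfl⟩
  rw [← hK]
  have hKsub : K ⊆ univ.powersetCard 3 := by
    rw [hK]
    exact fun T hT => (mem_collinear.1 hT).1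
  have hdis : ∀ a b c : Fin n, tc B' a b c ≠ 0 → a ≠ b ∧ a ≠ c ∧ b ≠ c := by
    intro a b c h0
    refine ⟨?_, ?_, ?_⟩
    · rintro rfl; exact h0 (tc_self1 h' _ _)
    · rintro rfl; exact h0 (tc_self3 h' _ _)
    · rintro rfl; exact h0 (tc_self2 h' _ _)
  have m := hM n (univ.powersetCard 3 \ K)
    (fun e he => (mem_powersetCard.mp (mem_sdiff.mp he).1).2) (tc B') (tc_lt (B := B'))
    (fun a b c => by rw [s12_d _ (tc_lt _ _ _)]; exact tc_swap12 h' a b c)
    (fun a b c => by rw [s23_d _ (tc_lt _ _ _)]; exact tc_swap23 h' a b c)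
    (fun a b c he => by
      by_contra h0
      rw [mem_sdiff] at he
      apply he.2
      have h4 := tc_lt (B := B') a b c
      rw [hK, mem_collinear]
      refine ⟨he.1, ?_⟩
      rcases (by omega : tc B' a b c = 1 ∨ tc B' a b c = 2 ∨ tc B' a b c = 3) with h1 | h2 | h3
      · exact ⟨b, by simp, a, by simp, c, by simp, tc_one.1 h1⟩
      · exact ⟨a, by simp, b, by simp, c, by simp, (tc_two h').1 h2⟩
      · exact ⟨a, by simp, c, by simp, b, by simp, (tc_three h').1 h3⟩)
    (bad B' univ)
    (fun Q hQ => by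
      unfold bad at hQ
      exact (mem_powersetCard.mp (mem_filter.mp hQ).1).2)
    (fun a b c d hab hac had hbc hbd hcd hnn => by
      have ok := ok_of_good h' hab hac had hbc hbd hcd (by
        intro hb
        apply hnn
        unfold bad
        rw [mem_filter, mem_powersetCard]
        refine ⟨⟨subset_univ _, ?_⟩, bad_inst _ _ hb⟩
        rw [card_insert_of_notMem (by simp [hab, hac, had]),
          card_insert_of_notMem (by simp [hbc, hbd]), card_insert_of_notMem (by simp [hcd]),
          card_singleton])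
      have e : c4 (tc B' a b c) (tc B' a b d) (tc B' a c d) (tc B' b c d) =
          tc B' a b c + 4 * tc B' a b d + 16 * tc B' a c d + 64 * tc B' b c d := by
        show _ + (4 * _ + (16 * _ + 64 * _)) = _
        omega
      rw [e]
      exact ok)
  have hc : (univ.powersetCard 3 \ K).card + K.card = n.choose 3 := by
    rw [card_sdiff_add_card_eq_card hKsub, card_powersetCard, card_univ, Fintype.card_fin]
  have hcube := cube_le n
  set HH := (univ.powersetCard 3 \ K).card
  set e := (bad B' univ).card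
  have k1 : n * n ^ 3 ≤ n * (6 * (HH + K.card) + 3 * n ^ 2) := by
    rw [hc]; exact Nat.mul_le_mul_left _ hcube
  nlinarith [m, k1, Nat.zero_le (27 * e)]

theorem robustH {C : ℕ} (hM : MainH C) {V : Type} {B : V → V → V → Prop} (h : Betw B)
    (S : Finset V) : 4 * S.card ^ 4 ≤
      54 * S.card * (collinear B S).card + (C + 27) * (S.card ^ 3 + (bad B S).card) := by
  refine (coreH hM (betw_pull h (fS S))).trans (add_le_add ?_ ?_)
  · exact Nat.mul_le_mul_left _ (collinear_pull B S)
  · exact Nat.mul_le_mul_left _ (Nat.add_le_add_left (bad_pull B S) _)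

end Pool.Agent.Helper64.Bt
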