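import Pool.Agent.Helper64.Bt.Cnt
import Pool.Agent.Helper64.Btw.SharpCount

/-! The final statements, from the inequality for codes. -/

set_option autoImplicit false
open Finset
open scoped Classical

namespace Pool.Agent.Helper64.Bt

/-- the points of `S` between two points of `S` form a chain -/
def Uniq {V : Type} (B : V → V → V → Prop) (S : Finset V) : Prop :=
  ∀ a ∈ S, ∀ x ∈ S, ∀ y ∈ S, ∀ c ∈ S, B a x c → B a y c → x = y ∨ B a x y ∨ B a y x

/-- among any four points of `S` one lies between two others -/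
def EveryFour {V : Type} (B : V → V → V → Prop) (S : Finset V) : Prop :=
  ∀ Q ⊆ S, Q.card = 4 → ∃ a ∈ Q, ∃ b ∈ Q, ∃ c ∈ Q, B a b c

theorem bad_empty {V : Type} {B : V → V → V → Prop} {S : Finset V} (hU : Uniq B S)
    (hE : EveryFour B S) : bad B S = ∅ := by
  unfold bad
  rw [filter_eq_empty_iff]
  intro Q hQ hb
  rw [mem_powersetCard] at hQ
  rcases hb with hb | ⟨a, ha, x, hx, y, hy, c, hc, hxy, h1, h2, h3, h4⟩
  · exact hb (hE Q hQ.1 hQ.2)
  · rcases hU a (hQ.1 ha) x (hQ.1 hx) y (hQ.1 hy) c (hQ.1 hc) h1 h2 with h | h | h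
    exacts [hxy h, h3 h, h4 h]

theorem cubic {C : ℕ} (hM : Main C) {V : Type} {B : V → V → V → Prop} (h : Betw B)
    (S : Finset V) (hU : Uniq B S) (hE : EveryFour B S) :
    4 * S.card ^ 3 ≤ 54 * (collinear B S).card + C * S.card ^ 2 := by
  have r := robust hM h S
  rw [bad_empty hU hE, card_empty, add_zero] at r
  rcases Nat.eq_zero_or_pos S.card with h0 | hp
  · rw [h0]; simp
  · refine Nat.le_of_mul_le_mul_left ?_ hp
    calc S.card * (4 * S.card ^ 3) = 4 * S.card ^ 4 := by ring
      _ ≤ 54 * S.card * (collinear B S).card + C * S.card ^ 3 := r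
      _ = S.card * (54 * (collinear B S).card + C * S.card ^ 2) := by ring

end Pool.Agent.Helper64.Bt
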