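import Mathlib

/-! Betweenness relations: codes of triples, and the four-point axioms in terms of the codes. -/

set_option autoImplicit false
set_option maxRecDepth 100000
open Finset

namespace Pool.Agent.Helper64.Bt

/-- is the point `j` between `i` and `k`, for the codes `x, y, z, w` of the triples `012`, `013`,
`023`, `123` of four points? -/
def bt (x y z w i j k : ℕ) : Bool :=
  match i + j + k with
  | 3 => Nat.beq x (j + 1)
  | 4 => Nat.beq y (if j = 3 then 3 else j + 1)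
  | 5 => Nat.beq z (if j = 0 then 1 else j)
  | 6 => Nat.beq w j
  | _ => false

def perms : List (ℕ × ℕ × ℕ × ℕ) :=
  [(0,1,2,3),(0,1,3,2),(0,2,1,3),(0,2,3,1),(0,3,1,2),(0,3,2,1),
   (1,0,2,3),(1,0,3,2),(1,2,0,3),(1,2,3,0),(1,3,0,2),(1,3,2,0),
   (2,0,1,3),(2,0,3,1),(2,1,0,3),(2,1,3,0),(2,3,0,1),(2,3,1,0),
   (3,0,1,2),(3,0,2,1),(3,1,0,2),(3,1,2,0),(3,2,0,1),(3,2,1,0)]

/-- the axioms for four points with the given codes -/
def ax4 (x y z w : ℕ) : Bool :=
  (!(Nat.beq x 0 && Nat.beq y 0 && Nat.beq z 0 && Nat.beq w 0)) &&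
  perms.all fun p =>
    (!(bt x y z w p.1 p.2.1 p.2.2.1 && bt x y z w p.1 p.2.2.1 p.2.2.2) ||
      (bt x y z w p.1 p.2.1 p.2.2.2 && bt x y z w p.2.1 p.2.2.1 p.2.2.2)) &&
    (!(bt x y z w p.1 p.2.1 p.2.2.1 && bt x y z w p.1 p.2.2.2 p.2.2.1) ||
      (bt x y z w p.1 p.2.1 p.2.2.2 || bt x y z w p.1 p.2.2.2 p.2.1))

/-- admissible codes of four points -/
def OK4 : ℕ := 0x1421800120001101800104290080000d400008000240150d1011000b103b177e

theorem ax4_ok : ∀ x < 4, ∀ y < 4, ∀ z < 4, ∀ w < 4, ax4 x y z w = true →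
    Nat.beq (Nat.mod (Nat.shiftRight OK4 (x + 4 * y + 16 * z + 64 * w)) 2) 1 = true := by
  decide

theorem perms_ex' : ∀ i < 4, ∀ j < 4, ∀ k < 4,
    (Nat.beq i j || (Nat.beq j k || (Nat.beq i k ||
      perms.elem (i, j, k, 6 - i - j - k)))) = true := by decide

theorem perms_ex {i j k : ℕ} (hi : i < 4) (hj : j < 4) (hk : k < 4) (h1 : i ≠ j) (h2 : j ≠ k)
    (h3 : i ≠ k) : (i, j, k, 6 - i - j - k) ∈ perms := by
  have h := perms_ex' i hi j hj k hk
  simp only [Bool.or_eq_true, Nat.beq_eq, h1, h2, h3, false_or] at h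
  exact List.elem_iff.1 h

theorem perms_sub : ∀ p ∈ perms, (p.1, p.2.2.1, p.2.2.2, p.2.1) ∈ perms ∧
    (p.1, p.2.1, p.2.2.2, p.2.2.1) ∈ perms ∧ (p.2.1, p.2.2.1, p.2.2.2, p.1) ∈ perms ∧
    (p.1, p.2.2.2, p.2.2.1, p.2.1) ∈ perms ∧ (p.1, p.2.2.2, p.2.1, p.2.2.1) ∈ perms ∧
    p.2.1 < 4 ∧ p.2.2.2 < 4 ∧ p.2.1 ≠ p.2.2.2 := by decide

theorem bt_zero : ∀ p ∈ perms, bt 0 0 0 0 p.1 p.2.1 p.2.2.1 = false := by decide

open scoped Classical


/-- A strict betweenness relation; the four axioms hold in every metric space. -/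
structure Betw {V : Type} (B : V → V → V → Prop) : Prop where
  ends : ∀ a b c, B a b c → a ≠ c
  symm : ∀ a b c, B a b c → B c b a
  mid : ∀ a b c, B a b c → ¬ B b a c
  trans : ∀ a b c e, B a b c → B a c e → B a b e ∧ B b c e

/-- the collinear triples of points of `S` -/
noncomputable def collinear {V : Type} (B : V → V → V → Prop) (S : Finset V) :
    Finset (Finset V) :=
  (S.powersetCard 3).filter fun t => ∃ a ∈ t, ∃ b ∈ t, ∃ c ∈ t, B a b c

/-- four points are bad if none lies between two others, or if two of them lie between the other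
two (or one of them and another one) without being comparable -/
def Bad {V : Type} (B : V → V → V → Prop) (Q : Finset V) : Prop :=
  (¬ ∃ a ∈ Q, ∃ b ∈ Q, ∃ c ∈ Q, B a b c) ∨
    ∃ a ∈ Q, ∃ x ∈ Q, ∃ y ∈ Q, ∃ c ∈ Q, x ≠ y ∧ B a x c ∧ B a y c ∧ ¬ B a x y ∧ ¬ B a y x

/-- the bad four-point subsets of `S` -/
noncomputable def bad {V : Type} (B : V → V → V → Prop) (S : Finset V) : Finset (Finset V) :=
  (S.powersetCard 4).filter fun Q => Bad B Q

/-- code of a triple: `0` if no point is between the two others, otherwise the position (`1`, `2`,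
`3`) of the middle point -/
noncomputable def tc {V : Type} (B : V → V → V → Prop) (a b c : V) : ℕ :=
  if B b a c then 1 else if B a b c then 2 else if B a c b then 3 else 0

section
variable {V : Type} {B : V → V → V → Prop}

theorem tc_lt (a b c : V) : tc B a b c < 4 := by
  unfold tc
  split_ifs <;> omega

theorem Betw.m1 (h : Betw B) {a b c : V} (h1 : B a b c) : ¬ B b a c := h.mid _ _ _ h1
theorem Betw.m2 (h : Betw B) {a b c : V} (h1 : B a b c) : ¬ B a c b := fun h2 =>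
  h.mid _ _ _ (h.symm _ _ _ h1) (h.symm _ _ _ h2)

theorem tc_one {a b c : V} : tc B a b c = 1 ↔ B b a c := by
  unfold tc
  split_ifs with h1 h2 h3 <;> simp [h1]

theorem tc_two (h : Betw B) {a b c : V} : tc B a b c = 2 ↔ B a b c := by
  unfold tc
  split_ifs with h1 h2 h3
  · simp [h.m1 h1]
  · simp [h2]
  · simp [h2]
  · simp [h2]

theorem tc_three (h : Betw B) {a b c : V} : tc B a b c = 3 ↔ B a c b := by
  unfold tc
  split_ifs with h1 h2 h3
  · simp only [OfNat.one_ne_ofNat, false_iff]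
    intro h3
    exact h.m2 h1 (h.symm _ _ _ h3)
  · simp only [Nat.reduceEqDiff, false_iff]
    exact h.m2 h2
  · simp [h3]
  · simp [h3]

theorem tc_self1 (h : Betw B) (a b : V) : tc B a a b = 0 := by
  unfold tc
  have h1 : ¬ B a a b := fun h1 => h.m1 h1 h1
  have h2 : ¬ B a b a := fun h2 => h.ends _ _ _ h2 rfl
  rw [if_neg h1, if_neg h1, if_neg h2]

theorem tc_self2 (h : Betw B) (a b : V) : tc B a b b = 0 := by
  unfold tc
  have h1 : ¬ B a b b := fun h1 => h.m2 h1 h1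
  have h2 : ¬ B b a b := fun h2 => h.ends _ _ _ h2 rfl
  rw [if_neg h2, if_neg h1, if_neg h1]

theorem tc_self3 (h : Betw B) (a b : V) : tc B a b a = 0 := by
  unfold tc
  have h1 : ¬ B a b a := fun h1 => h.ends _ _ _ h1 rfl
  have h2 : ¬ B b a a := fun h2 => h.m2 h2 h2
  have h3 : ¬ B a a b := fun h2 => h.m1 h2 h2
  rw [if_neg h2, if_neg h1, if_neg h3]

/-- exchange of the first two points -/
theorem tc_swap12 (h : Betw B) (a b c : V) :
    tc B b a c = if tc B a b c = 1 then 2 else if tc B a b c = 2 then 1 else tc B a b c := by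
  have e3 : B b c a ↔ B a c b := ⟨h.symm _ _ _, h.symm _ _ _⟩
  rcases (by have := tc_lt (B := B) a b c; omega : tc B a b c = 0 ∨ tc B a b c = 1 ∨
    tc B a b c = 2 ∨ tc B a b c = 3) with h0 | h1 | h2 | h3
  · rw [h0, if_neg (by decide), if_neg (by decide)]
    have := tc_lt (B := B) b a c
    have n1 : tc B b a c ≠ 1 := fun hh => by
      have := (tc_two h).2 (tc_one.1 hh); omega
    have n2 : tc B b a c ≠ 2 := fun hh => by
      have := (tc_one (B := B)).2 ((tc_two h).1 hh); omega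
    have n3 : tc B b a c ≠ 3 := fun hh => by
      have := (tc_three h).2 (e3.1 ((tc_three h).1 hh)); omega
    omega
  · rw [h1, if_pos rfl]
    exact (tc_two h).2 (tc_one.1 h1)
  · rw [h2, if_neg (by decide), if_pos rfl]
    exact tc_one.2 ((tc_two h).1 h2)
  · rw [h3, if_neg (by decide), if_neg (by decide)]
    exact (tc_three h).2 (e3.2 ((tc_three h).1 h3))

/-- exchange of the last two points -/
theorem tc_swap23 (h : Betw B) (a b c : V) :
    tc B a c b = if tc B a b c = 2 then 3 else if tc B a b c = 3 then 2 else tc B a b c := by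
  have e1 : B c a b ↔ B b a c := ⟨h.symm _ _ _, h.symm _ _ _⟩
  rcases (by have := tc_lt (B := B) a b c; omega : tc B a b c = 0 ∨ tc B a b c = 1 ∨
    tc B a b c = 2 ∨ tc B a b c = 3) with h0 | h1 | h2 | h3
  · rw [h0, if_neg (by decide), if_neg (by decide)]
    have := tc_lt (B := B) a c b
    have n1 : tc B a c b ≠ 1 := fun hh => by
      have := (tc_one (B := B)).2 (e1.1 (tc_one.1 hh)); omega
    have n2 : tc B a c b ≠ 2 := fun hh => by
      have := (tc_three h).2 ((tc_two h).1 hh); omega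
    have n3 : tc B a c b ≠ 3 := fun hh => by
      have := (tc_two h).2 ((tc_three h).1 hh); omega
    omega
  · rw [h1, if_neg (by decide), if_neg (by decide)]
    exact tc_one.2 (e1.2 (tc_one.1 h1))
  · rw [h2, if_pos rfl]
    exact (tc_three h).2 ((tc_two h).1 h2)
  · rw [h3, if_neg (by decide), if_pos rfl]
    exact (tc_two h).2 ((tc_three h).1 h3)

end

section
variable {V : Type} {B : V → V → V → Prop}

/-- the `i`-th of four points -/
def pt (a b c d : V) (i : ℕ) : V :=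
  if i = 0 then a else if i = 1 then b else if i = 2 then c else d

theorem bt_iff (h : Betw B) (a b c d : V) (i j k : ℕ) (hp : ∃ l, (i, j, k, l) ∈ perms) :
    bt (tc B a b c) (tc B a b d) (tc B a c d) (tc B b c d) i j k = true ↔
      B (pt a b c d i) (pt a b c d j) (pt a b c d k) := by
  obtain ⟨l, hp⟩ := hp
  have key : ∀ x y z : V, (Nat.beq (tc B x y z) 1 = true ↔ B y x z) ∧
      (Nat.beq (tc B x y z) 1 = true ↔ B z x y) ∧
      (Nat.beq (tc B x y z) 2 = true ↔ B x y z) ∧ (Nat.beq (tc B x y z) 2 = true ↔ B z y x) ∧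
      (Nat.beq (tc B x y z) 3 = true ↔ B x z y) ∧ (Nat.beq (tc B x y z) 3 = true ↔ B y z x) := by
    intro x y z
    simp only [Nat.beq_eq, tc_one, tc_two h, tc_three h, true_and]
    exact ⟨⟨h.symm _ _ _, h.symm _ _ _⟩, ⟨h.symm _ _ _, h.symm _ _ _⟩,
      ⟨h.symm _ _ _, h.symm _ _ _⟩⟩
  simp only [perms, List.mem_cons, Prod.mk.injEq, List.not_mem_nil, or_false] at hp
  obtain ⟨k1, k2, k3, k4, k5, k6⟩ := key a b c
  obtain ⟨l1, l2, l3, l4, l5, l6⟩ := key a b d
  obtain ⟨m1, m2, m3, m4, m5, m6⟩ := key a c d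
  obtain ⟨n1, n2, n3, n4, n5, n6⟩ := key b c d
  rcases hp with ⟨rfl, rfl, rfl, -⟩ | ⟨rfl, rfl, rfl, -⟩ | ⟨rfl, rfl, rfl, -⟩ | ⟨rfl, rfl, rfl, -⟩ | ⟨rfl, rfl, rfl, -⟩ | ⟨rfl, rfl, rfl, -⟩ | ⟨rfl, rfl, rfl, -⟩ | ⟨rfl, rfl, rfl, -⟩ | ⟨rfl, rfl, rfl, -⟩ | ⟨rfl, rfl, rfl, -⟩ | ⟨rfl, rfl, rfl, -⟩ | ⟨rfl, rfl, rfl, -⟩ | ⟨rfl, rfl, rfl, -⟩ | ⟨rfl, rfl, rfl, -⟩ | ⟨rfl, rfl, rfl, -⟩ | ⟨rfl, rfl, rfl, -⟩ | ⟨rfl, rfl, rfl, -⟩ | ⟨rfl, rfl, rfl, -⟩ | ⟨rfl, rfl, rfl, -⟩ | ⟨rfl, rfl, rfl, -⟩ | ⟨rfl, rfl, rfl, -⟩ | ⟨rfl, rfl, rfl, -⟩ | ⟨rfl, rfl, rfl, -⟩ | ⟨rfl, rfl, rfl, -⟩ <;>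
    first | exact k1 | exact k2 | exact k3 | exact k4 | exact k5 | exact k6
          | exact l1 | exact l2 | exact l3 | exact l4 | exact l5 | exact l6
          | exact m1 | exact m2 | exact m3 | exact m4 | exact m5 | exact m6
          | exact n1 | exact n2 | exact n3 | exact n4 | exact n5 | exact n6

theorem pt_mem (a b c d : V) (i : ℕ) : pt a b c d i ∈ ({a, b, c, d} : Finset V) := by
  unfold pt
  split_ifs <;> simp

theorem pt_ne {a b c d : V} (hab : a ≠ b) (hac : a ≠ c) (had : a ≠ d) (hbc : b ≠ c) (hbd : b ≠ d)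
    (hcd : c ≠ d) {i j : ℕ} (hi : i < 4) (hj : j < 4) (hij : i ≠ j) :
    pt a b c d i ≠ pt a b c d j := by
  interval_cases i <;> interval_cases j <;> simp_all [pt, Ne.symm]

theorem pt_of_mem {a b c d x : V} (hx : x ∈ ({a, b, c, d} : Finset V)) :
    ∃ i < 4, x = pt a b c d i := by
  simp only [mem_insert, mem_singleton] at hx
  rcases hx with rfl | rfl | rfl | rfl
  · exact ⟨0, by decide, rfl⟩
  · exact ⟨1, by decide, rfl⟩
  · exact ⟨2, by decide, rfl⟩
  · exact ⟨3, by decide, rfl⟩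

/-- good four-point sets have admissible codes -/
theorem ok_of_good (h : Betw B) {a b c d : V} (hab : a ≠ b) (hac : a ≠ c) (had : a ≠ d)
    (hbc : b ≠ c) (hbd : b ≠ d) (hcd : c ≠ d) (hg : ¬ Bad B {a, b, c, d}) :
    Nat.beq (Nat.mod (Nat.shiftRight OK4
      (tc B a b c + 4 * tc B a b d + 16 * tc B a c d + 64 * tc B b c d)) 2) 1 = true := by
  refine ax4_ok _ (tc_lt _ _ _) _ (tc_lt _ _ _) _ (tc_lt _ _ _) _ (tc_lt _ _ _) ?_
  unfold Bad at hg
  rw [not_or, not_not] at hg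
  obtain ⟨⟨p, hp, q, hq, r, hr, hB⟩, hg⟩ := hg
  have hne : ∀ {i j : ℕ}, i < 4 → j < 4 → i ≠ j → pt a b c d i ≠ pt a b c d j :=
    fun hi hj hij => pt_ne hab hac had hbc hbd hcd hi hj hij
  unfold ax4
  rw [Bool.and_eq_true]
  refine ⟨?_, ?_⟩
  · by_contra hc
    simp only [Bool.not_eq_true, Bool.not_eq_false', Bool.and_eq_true] at hc
    obtain ⟨⟨⟨h1, h2⟩, h3⟩, h4⟩ := hc
    have h1 := Nat.eq_of_beq_eq_true h1
    have h2 := Nat.eq_of_beq_eq_true h2
    have h3 := Nat.eq_of_beq_eq_true h3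
    have h4 := Nat.eq_of_beq_eq_true h4
    obtain ⟨i, hi, rfl⟩ := pt_of_mem hp
    obtain ⟨j, hj, rfl⟩ := pt_of_mem hq
    obtain ⟨k, hk, rfl⟩ := pt_of_mem hr
    have nij : i ≠ j := by
      rintro rfl
      exact h.m1 hB hB
    have njk : j ≠ k := by
      rintro rfl
      exact h.m2 hB hB
    have nik : i ≠ k := by
      rintro rfl
      exact h.ends _ _ _ hB rfl
    have hl := perms_ex hi hj hk nij njk nik
    have := (bt_iff h a b c d i j k ⟨_, hl⟩).2 hB
    rw [h1, h2, h3, h4, bt_zero _ hl] at this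
    exact absurd this (by decide)
  · rw [List.all_eq_true]
    intro s hs
    obtain ⟨s1, s2, s3, s4, s5, s6, s7, s8⟩ := perms_sub s hs
    have e1 := bt_iff h a b c d s.1 s.2.1 s.2.2.1 ⟨_, hs⟩
    have e2 := bt_iff h a b c d s.1 s.2.2.1 s.2.2.2 ⟨_, s1⟩
    have e3 := bt_iff h a b c d s.1 s.2.1 s.2.2.2 ⟨_, s2⟩
    have e4 := bt_iff h a b c d s.2.1 s.2.2.1 s.2.2.2 ⟨_, s3⟩
    have e5 := bt_iff h a b c d s.1 s.2.2.2 s.2.2.1 ⟨_, s4⟩
    have e6 := bt_iff h a b c d s.1 s.2.2.2 s.2.1 ⟨_, s5⟩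
    simp only [Bool.and_eq_true, Bool.or_eq_true, Bool.not_eq_true',
      ← Bool.not_eq_true, e1, e2, e3, e4, e5, e6]
    constructor
    · by_cases u1 : B (pt a b c d s.1) (pt a b c d s.2.1) (pt a b c d s.2.2.1)
      · by_cases u2 : B (pt a b c d s.1) (pt a b c d s.2.2.1) (pt a b c d s.2.2.2)
        · exact Or.inr (h.trans _ _ _ _ u1 u2)
        · exact Or.inl fun hh => u2 hh.2
      · exact Or.inl fun hh => u1 hh.1
    · by_cases u1 : B (pt a b c d s.1) (pt a b c d s.2.1) (pt a b c d s.2.2.1)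
      · by_cases u2 : B (pt a b c d s.1) (pt a b c d s.2.2.2) (pt a b c d s.2.2.1)
        · right
          by_contra hn
          rw [not_or] at hn
          exact hg ⟨_, pt_mem _ _ _ _ _, _, pt_mem _ _ _ _ _, _, pt_mem _ _ _ _ _, _,
            pt_mem _ _ _ _ _, hne s6 s7 s8, u1, u2, hn.1, hn.2⟩
        · exact Or.inl fun hh => u2 hh.2
      · exact Or.inl fun hh => u1 hh.1

end
end Pool.Agent.Helper64.Bt
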